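import Pool.Agent.D0H34.KC.Stm
import Pool.Agent.D0H34.KG.Eis

/-! Project KC, module IDL: `θ - a_i` is the `m`-th power of an ideal. -/

set_option autoImplicit false

open Polynomial NumberField nonZeroDivisors

namespace Pool.Agent.D0H77.KC

open Pool.Agent.D0H34.KC

theorem t_IDL : S_IDL := by
  intro F _ _ k m w s a g θ hm hint hθ i hcop u hu
  classical
  let t : 𝓞 F := ⟨θ, hint⟩
  have ht : algebraMap (𝓞 F) F t = θ := rfl
  let h : ℤ[X] := (∏ j ∈ Finset.univ.erase i, (X - C (a j))) * g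
  have hpol : pol a g ((w : ℤ) ^ (s * m)) = (X - C (a i)) * h + C ((w : ℤ) ^ (s * m)) := by
    unfold pol
    rw [← Finset.mul_prod_erase _ _ (Finset.mem_univ i)]
    simp only [h]
    ring
  -- the derivative
  have hder : (pol a g ((w : ℤ) ^ (s * m))).derivative.eval (a i) = h.eval (a i) := by
    rw [hpol]
    clear_value h
    rw [derivative_add, derivative_C, add_zero, derivative_mul, derivative_sub, derivative_X,
      derivative_C, sub_zero, one_mul, eval_add, eval_mul, eval_sub, eval_X, eval_C, sub_self,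
      zero_mul, add_zero]
  rw [hder] at hcop
  -- the equation in the ring of integers
  have heq : (t - (a i : 𝓞 F)) * aeval t h + (w : 𝓞 F) ^ (s * m) = 0 := by
    have h1 : (((t - (a i : 𝓞 F)) * aeval t h + (w : 𝓞 F) ^ (s * m) : 𝓞 F) : F) = 0 := by
      have h2 : aeval θ (pol a g ((w : ℤ) ^ (s * m))) =
          (θ - (a i : F)) * aeval θ h + (w : F) ^ (s * m) := by
        rw [hpol]
        simp
      rw [h2] at hθ
      have h3 : algebraMap (𝓞 F) F (aeval t h) = aeval θ h := by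
        have h4 := Polynomial.aeval_algebraMap_apply F t h
        exact h4.symm
      simp only [map_add, map_mul, map_sub, map_pow, map_intCast, map_natCast]
      rw [h3, ht]
      exact hθ
    exact_mod_cast h1
  -- coprimality
  have hdvd : (t - (a i : 𝓞 F)) ∣ aeval t h - ((h.eval (a i) : ℤ) : 𝓞 F) := by
    have h1 := Polynomial.sub_dvd_eval_sub t (a i : 𝓞 F) (h.map (algebraMap ℤ (𝓞 F)))
    rw [Polynomial.eval_map_algebraMap, Polynomial.eval_intCast_map] at h1
    simpa using h1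
  obtain ⟨y, hy⟩ := hdvd
  have hc1 : IsCoprime ((h.eval (a i) : ℤ) : 𝓞 F) ((w : 𝓞 F)) := by
    have h1 := hcop.map (Int.castRingHom (𝓞 F))
    simpa using h1
  have hc2 : IsCoprime ((h.eval (a i) : ℤ) : 𝓞 F) ((w : 𝓞 F) ^ (s * m)) := hc1.pow_right
  have hw : (w : 𝓞 F) ^ (s * m) = (t - (a i : 𝓞 F)) * (-(aeval t h)) := by
    linear_combination heq
  rw [hw] at hc2
  have hc3 : IsCoprime ((h.eval (a i) : ℤ) : 𝓞 F) (t - (a i : 𝓞 F)) :=
    IsCoprime.of_mul_right_left hc2
  have hc4 : IsCoprime (t - (a i : 𝓞 F)) (-(aeval t h)) := by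
    have h1 : aeval t h = ((h.eval (a i) : ℤ) : 𝓞 F) + (t - (a i : 𝓞 F)) * y := by
      linear_combination hy
    rw [h1]
    exact (IsCoprime.add_mul_left_right hc3.symm y).neg_right
  have hP := Pool.Agent.D0H34.KG.t_EIS (𝓞 F) (t - (a i : 𝓞 F)) (-(aeval t h))
    ((w : 𝓞 F) ^ s) m hm (by rw [← pow_mul]; exact hw) hc4
  have hx0 : t - (a i : 𝓞 F) ≠ 0 := by
    intro h0
    apply u.ne_zero
    rw [hu]
    have h1 := congrArg (algebraMap (𝓞 F) F) h0
    rwa [map_sub, map_intCast, map_zero, ht] at h1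
  have hP0 : (Ideal.span {t - (a i : 𝓞 F), (w : 𝓞 F) ^ s} : Ideal (𝓞 F)) ≠ ⊥ := by
    intro h0
    rw [h0, ← Ideal.zero_eq_bot, zero_pow (by omega), Ideal.zero_eq_bot, eq_comm,
      Ideal.span_singleton_eq_bot] at hP
    exact hx0 hP
  have hP1 : ((Ideal.span {t - (a i : 𝓞 F), (w : 𝓞 F) ^ s} : Ideal (𝓞 F)) :
      FractionalIdeal (𝓞 F)⁰ F) ≠ 0 := FractionalIdeal.coeIdeal_ne_zero.2 hP0
  refine ⟨Units.mk0 _ hP1, ?_⟩
  apply Units.ext
  have h5 : (algebraMap (𝓞 F) F) (t - (a i : 𝓞 F)) = θ - (a i : F) := by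
    rw [map_sub, map_intCast, ht]
  rw [Units.val_pow_eq_pow_val, Units.val_mk0, coe_toPrincipalIdeal, hu,
    ← FractionalIdeal.coeIdeal_pow, hP, FractionalIdeal.coeIdeal_span_singleton, h5]

end Pool.Agent.D0H77.KC
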